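import Mathlib
import Pool.Agent.H55.FW.Stm

/-!
# Graded traces (modules `S_hvG`, `S_kGm`)
-/

set_option autoImplicit false

namespace Pool.Agent.H1.FW

open Pool.Agent.W608.PR Pool.Agent.H55.FU Pool.Agent.H55.FV Pool.Agent.H55.FW

theorem kG_top (E m : ℕ) (hm : 1 ≤ m) : kG E m m = kS E m := by
  unfold kG kS
  have h := sz_pred E m hm
  rw [show sz E m - aa E m = sz E (m - 1) by omega]

theorem two_kG {E m v : ℕ} (h : aa E v ≤ sz E m) :
    2 * (kG E m v : ℤ) = 2 * ((aa E v : ℤ) - 1) * (sz E m - aa E v) +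
      (aa E v - 1) * (aa E v - 2) := by
  have h1 := half (aa E v)
  have h2 := aa_pos E v
  unfold kG
  generalize aa E v = a at *
  generalize sz E m = N at *
  obtain ⟨b, rfl⟩ : ∃ b, a = b + 1 := ⟨a - 1, by omega⟩
  obtain ⟨c, rfl⟩ : ∃ c, N = b + 1 + c := ⟨N - (b + 1), by omega⟩
  rw [Nat.add_sub_cancel] at h1 ⊢
  rw [show b + 1 + c - (b + 1) = c by omega]
  generalize b * (b + 1 - 2) / 2 = z at h1 ⊢
  have h3 : 2 * (z : ℤ) = b * (b - 1) := by
    rcases Nat.eq_zero_or_pos b with hb | hb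
    · subst hb
      rw [Nat.zero_mul] at h1
      have : z = 0 := by omega
      rw [this]
      norm_num
    · obtain ⟨b', rfl⟩ : ∃ b', b = b' + 1 := ⟨b - 1, by omega⟩
      rw [show b' + 1 + 1 - 2 = b' by omega] at h1
      have h12 : 2 * (z : ℤ) = (b' + 1) * b' := by exact_mod_cast h1
      push_cast
      linarith
  push_cast
  linarith

theorem aa_mono {E v w : ℕ} (h : v ≤ w) : aa E v ≤ aa E w := by
  unfold aa
  exact Nat.choose_le_choose _ (by omega)

theorem aa_le_sz {E m : ℕ} (hm : 1 ≤ m) : aa E m ≤ sz E m := by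
  have h := sz_pred E m hm
  omega

theorem kGm : S_kGm := by
  intro E m v w hv hvw hwm
  refine ⟨?_, kG_top E m (by omega)⟩
  have h1 := aa_mono (E := E) hvw
  have h2 := (aa_mono (E := E) hwm).trans (aa_le_sz (E := E) (m := m) (by omega))
  have h3 := two_kG (E := E) (m := m) (v := v) (h1.trans h2)
  have h4 := two_kG (E := E) (m := m) (v := w) h2
  rcases h1.eq_or_lt with h5 | h5
  · have h6 : (2 : ℤ) * kG E m v = 2 * kG E m w := by rw [h3, h4, h5]
    have h7 : (kG E m v : ℤ) = kG E m w := by linarith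
    exact le_of_eq (by exact_mod_cast h7)
  · have x1 : (aa E v : ℤ) + 1 ≤ aa E w := by exact_mod_cast h5
    have x2 : (aa E w : ℤ) ≤ sz E m := by exact_mod_cast h2
    have x3 : 0 ≤ ((aa E w : ℤ) - aa E v) * (2 * sz E m - 1 - (aa E v + aa E w)) :=
      mul_nonneg (by linarith) (by linarith)
    have h6 : (2 : ℤ) * kG E m v ≤ 2 * kG E m w := by
      rw [h3, h4]
      nlinarith
    have h7 : (kG E m v : ℤ) ≤ kG E m w := by linarith
    exact_mod_cast h7

/-- independent conditions, the smallest multiplicity is added last -/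
theorem graded {d D : ℕ} {h : Multiset ℕ → ℕ} {g : ℕ → Multiset ℕ → ℕ} {a N : ℕ → ℕ}
    (S : K4H38FP.Sys d D h g a N) (m : ℕ) (K : ℕ → ℕ)
    (hK : ∀ k, k < m → 2 * (K (k + 1) : ℤ) = 2 * ((a k : ℤ) - 1) * (N m - a k) +
      (a k - 1) * (a k - 2)) :
    ∀ l : List ℕ, l.Pairwise (· ≤ ·) → (∀ x ∈ l, 1 ≤ x ∧ x ≤ m ∧ x ≤ d + 1) →
      (∀ x ∈ l, (((l : Multiset ℕ).filter (fun y => x ≤ y)).map N).sum + K x ≤ D) →
      h (l : Multiset ℕ) + ((l : Multiset ℕ).map N).sum = D := by
  intro l
  induction l with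
  | nil =>
    intro _ _ _
    rw [Multiset.coe_nil, S.h7]
    simp
  | cons x l ih =>
    intro hp hx hH
    rw [List.pairwise_cons] at hp
    have h1 := ih hp.2 (fun y hy => hx y (List.mem_cons_of_mem _ hy)) (fun y hy => by
      have h2 := hH y (List.mem_cons_of_mem _ hy)
      rw [← Multiset.cons_coe] at h2
      by_cases hyx : y ≤ x
      · rw [Multiset.filter_cons_of_pos _ hyx, Multiset.map_cons, Multiset.sum_cons] at h2
        have h3 : N x + (((l : Multiset ℕ).filter (fun z => y ≤ z)).map N).sum + K y ≤ D := h2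
        omega
      · rw [Multiset.filter_cons_of_neg _ hyx] at h2
        exact h2)
    obtain ⟨hx1, hxm, hxd⟩ := hx x List.mem_cons_self
    obtain ⟨k, rfl⟩ : ∃ k, x = k + 1 := ⟨x - 1, by omega⟩
    have h2 := hH (k + 1) List.mem_cons_self
    have hfil : ((((k + 1) :: l : List ℕ) : Multiset ℕ).filter (fun y => k + 1 ≤ y)) =
        (((k + 1) :: l : List ℕ) : Multiset ℕ) := by
      rw [Multiset.filter_eq_self]
      intro y hy
      rcases List.mem_cons.1 (Multiset.mem_coe.1 hy) with hy | hy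
      · exact hy.ge
      · exact hp.1 y hy
    rw [hfil, ← Multiset.cons_coe, Multiset.map_cons, Multiset.sum_cons] at h2
    rw [← Multiset.cons_coe, Multiset.map_cons, Multiset.sum_cons]
    have hk : k ≤ d := by omega
    rcases (S.h2 k hk (l : Multiset ℕ)).eq_or_lt with h3 | h3
    · have h4 := S.h_full hk h3 le_rfl
      omega
    · exfalso
      have hap := S.apos k
      have h4 := S.bound (M := min m (d + 1)) (by omega) (by omega : k < min m (d + 1))
        (a k - 1) (l : Multiset ℕ) (fun y hy => by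
          have h5 := hx y (List.mem_cons_of_mem _ (Multiset.mem_coe.1 hy))
          omega) (by omega) (by omega)
      have hNM : N (min m (d + 1)) ≤ N m := S.N_mono (min_le_left _ _)
      have hNs := S.Ns k
      have h5 := hK k (by omega)
      generalize N (min m (d + 1)) = NM at h4 hNM
      obtain ⟨c, hc⟩ : ∃ c, a k = c + 1 := ⟨a k - 1, by omega⟩
      rw [hc] at h4 h5 hNs
      rw [Nat.add_sub_cancel] at h4
      rw [hNs] at h2
      have y1 : (h (l : Multiset ℕ) : ℤ) + (((l : Multiset ℕ).map N).sum : ℕ) = D := by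
        exact_mod_cast h1
      have y2 : (N k : ℤ) + (c + 1) + (((l : Multiset ℕ).map N).sum : ℕ) + K (k + 1) ≤ D := by
        exact_mod_cast h2
      have y3 : (NM : ℤ) ≤ N m := by exact_mod_cast hNM
      have y4 : (c : ℤ) * NM ≤ c * N m := mul_le_mul_of_nonneg_left y3 (Nat.cast_nonneg c)
      push_cast at h4 h5
      nlinarith

theorem hvG : S_hvG := by
  classical
  intro E m hE hm ι _ u e hu hv hN
  refine Pool.Agent.H55.FE.te_of_hv Pool.Agent.H55.FE.full hE u e ?_
  set s : Multiset ℕ := Finset.univ.val.map u with hs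
  have hmem : ∀ x ∈ s, ∃ i, u i = x := by
    intro x hx
    obtain ⟨i, _, rfl⟩ := Multiset.mem_map.1 hx
    exact ⟨i, rfl⟩
  have hsum : (s.map (sz E)).sum = ∑ i, sz E (u i) := by
    rw [hs, Multiset.map_map]
    rfl
  have hfs : ∀ v, ((s.filter (fun y => v ≤ y)).map (sz E)).sum =
      ∑ i ∈ Finset.univ.filter (fun i => v ≤ u i), sz E (u i) := by
    intro v
    rw [hs, Multiset.filter_map, Multiset.map_map]
    rfl
  have S := K4H38FP.sys (n := E + 1) (by omega) e
  have ht : ∀ v ∈ s.filter (fun y => ¬ 2 ≤ y), v ≤ 1 := by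
    intro v hv
    have := (Multiset.mem_filter.1 hv).2
    omega
  have h5 := Pool.Agent.H55.FE.hv_add_le (n := E + 1) (by omega) e
    (s.filter (fun y => 2 ≤ y)) _ ht
  have hsplit : s.filter (fun y => 2 ≤ y) + s.filter (fun y => ¬ 2 ≤ y) = s :=
    Multiset.filter_add_not _ _
  rw [hsplit] at h5
  have h6 : (s.map (sz E)).sum = ((s.filter (fun y => 2 ≤ y)).map (sz E)).sum +
      (s.filter (fun y => ¬ 2 ≤ y)).sum := by
    rw [← Pool.Agent.H55.FE.sum_sz_simple E _ ht, ← Multiset.sum_add, ← Multiset.map_add, hsplit]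
  have hch : Nn E e = (E + 1 + e).choose (E + 1) := Pool.Agent.H55.FE.Nn_eq_ch E e
  -- the sorted list
  obtain ⟨l, hl, hls⟩ : ∃ l : List ℕ, (l : Multiset ℕ) = s.filter (fun y => 2 ≤ y) ∧
      l.Pairwise (· ≤ ·) :=
    ⟨(s.filter (fun y => 2 ≤ y)).sort (· ≤ ·), Multiset.sort_eq _ _, Multiset.pairwise_sort _ _⟩
  have hlm : ∀ x ∈ l, 2 ≤ x ∧ x ∈ s := by
    intro x hx
    have : x ∈ (l : Multiset ℕ) := Multiset.mem_coe.2 hx
    rw [hl, Multiset.mem_filter] at this
    exact ⟨this.2, this.1⟩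
  have h7 := graded S m (kG E m) (fun k hk => by
      have h8 : aa E (k + 1) ≤ sz E m := (aa_mono (by omega)).trans (aa_le_sz hm)
      have h9 := two_kG h8
      rw [aa_eq_ak, Nat.add_sub_cancel, Pool.Agent.H55.FE.sz_eq_nc] at h9
      exact h9) l hls (fun x hx => by
        obtain ⟨h8, h9⟩ := hlm x hx
        obtain ⟨i, rfl⟩ := hmem x h9
        refine ⟨by omega, hu i, ?_⟩
        by_contra hcon
        have h10 := hv (u i) h8 (hu i)
        have h11 : sz E (u i) ≤ ∑ j ∈ Finset.univ.filter (fun j => u i ≤ u j), sz E (u j) :=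
          Finset.single_le_sum (f := fun j => sz E (u j)) (fun j _ => Nat.zero_le _)
            (Finset.mem_filter.2 ⟨Finset.mem_univ i, le_rfl⟩)
        have h12 : Nn E e = sz E (e + 1) := by
          unfold Nn sz
          congr 1
          omega
        have h13 := sz_pred E (e + 2) (by omega)
        have h14 := aa_pos E (e + 2)
        have h15 : sz E (e + 2) ≤ sz E (u i) := sz_mono E (by omega)
        rw [show e + 2 - 1 = e + 1 by omega] at h13
        omega) (fun x hx => by
          obtain ⟨h8, h9⟩ := hlm x hx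
          obtain ⟨i, hi⟩ := hmem x h9
          have h10 := hv x h8 (by rw [← hi]; exact hu i)
          rw [← hfs x, map_szm, hch] at h10
          rw [hl, Multiset.filter_filter]
          have h11 : s.filter (fun y => x ≤ y ∧ 2 ≤ y) = s.filter (fun y => x ≤ y) :=
            Multiset.filter_congr fun y _ => ⟨fun h => h.1, fun h => ⟨h, h8.trans h⟩⟩
          rw [h11]
          exact h10)
  rw [hl, ← map_szm, ← hch] at h7
  rw [← hsum, h6] at hN
  omega

end Pool.Agent.H1.FW
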