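import Mathlib
import Pool.Agent.H55.FW.Stm
import Pool.Agent.H1.FV.NumBv

/-!
# The numerical part of Theorem B'' (module `S_numBw`)

As `Pool/Agent/H1/FV/NumBv.lean`, with `L = 2 m - 2` and all degrees `d ≥ 3 m - 1`, `m ≥ 2`.
-/

set_option autoImplicit false

namespace Pool.Agent.H1.FW

open Pool.Agent.W608.PR Pool.Agent.H55.FU Pool.Agent.H1.FU Pool.Agent.H55.FV Pool.Agent.H1.FV
open Pool.Agent.H55.FW

lemma bd_shift {f : ℕ → ℕ} {j : ℕ} (h : Bd f j) : Bd (fun E => f (E + 1)) j := by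
  obtain ⟨C, hC⟩ := h
  refine ⟨C * 2 ^ j, fun E => (hC (E + 1)).trans ?_⟩
  rw [mul_assoc, ← mul_pow]
  exact Nat.mul_le_mul_left _ (Nat.pow_le_pow_left (by omega) j)

/-- quotients -/
lemma bd_div {f s : ℕ → ℕ} {j x : ℕ} {D : ℕ} (h : Bd f (j + x))
    (hs : ∀ E, (E + 1) ^ x ≤ D * s E) : Bd (fun E => f E / s E) j := by
  obtain ⟨C, hC⟩ := h
  refine ⟨C * D, fun E => ?_⟩
  refine Nat.div_le_of_le_mul ?_
  calc f E ≤ C * (E + 1) ^ (j + x) := hC E
    _ = C * (E + 1) ^ j * (E + 1) ^ x := by rw [pow_add]; ring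
    _ ≤ C * (E + 1) ^ j * (D * s E) := Nat.mul_le_mul_left _ (hs E)
    _ = s E * (C * D * (E + 1) ^ j) := by ring

lemma bd_half {m : ℕ} (hm : 1 ≤ m) :
    Bd (fun E => (aa E m - 1) * (aa E m - 2) / 2) (2 * m - 2) := by
  have haa := bd_aa hm
  refine (haa.mul haa (l := 2 * m - 2) (by omega)).le fun E => ?_
  exact (Nat.div_le_self _ _).trans (Nat.mul_le_mul (Nat.sub_le _ _) (Nat.sub_le _ _))

lemma bd_kS {m : ℕ} (hm : 1 ≤ m) : Bd (fun E => kS E m) (2 * m - 2) := by
  have haa := bd_aa hm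
  have hsz := bd_sz hm
  unfold kS
  refine Bd.add (i := 2 * m - 2) (j := 2 * m - 2) ?_ (bd_half hm) le_rfl le_rfl
  refine (haa.mul hsz (l := 2 * m - 2) (by omega)).le fun E => ?_
  exact Nat.mul_le_mul (Nat.sub_le _ _) (sz_mono E (by omega))

lemma bd_cS {m : ℕ} (hm : 1 ≤ m) : Bd (fun E => cS E m) (2 * m - 2) := by
  have haa := bd_aa hm
  have hsz := bd_sz hm
  unfold cS
  refine (haa.mul hsz (l := 2 * m - 2) (by omega)).le fun E => ?_
  exact Nat.mul_le_mul (Nat.sub_le _ _) (Nat.sub_le _ _)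

lemma bd_cT {m : ℕ} (hm : 1 ≤ m) : Bd (fun E => cT E m) (2 * m - 2) := by
  have haa := bd_aa' hm
  have hSz := bd_Sz hm
  unfold cT
  refine (haa.mul hSz (l := 2 * m - 2) (by omega)).le fun E => ?_
  exact Nat.mul_le_mul (Nat.sub_le _ _) (Nat.sub_le _ _)

lemma bd_kG {m v : ℕ} (hv : v + 1 ≤ m) : Bd (fun E => kG E m (v + 1)) (m + v - 1) := by
  have haa := bd_aa (m := v + 1) (by omega)
  have hsz := bd_sz (m := m) (by omega)
  unfold kG
  refine Bd.add (i := m + v - 1) (j := 2 * (v + 1) - 2) ?_ (bd_half (by omega)) le_rfl (by omega)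
  refine (haa.mul hsz (l := m + v - 1) (by omega)).le fun E => ?_
  exact Nat.mul_le_mul (Nat.sub_le _ _) (Nat.sub_le _ _)

lemma bd_Ir {m : ℕ} (hm : 1 ≤ m) : ∀ v, v ≤ m → ∀ g : ℕ → ℕ, Bd g (m + v - 1) →
    Bd (fun E => Ir E (kG E m) v (g E)) m := by
  intro v
  induction v with
  | zero =>
    intro _ g _
    exact (Bd.const 0 m).le fun E => by simp [Ir]
  | succ v ih =>
    intro hv g hg
    have h1 : Bd (fun E => g E / sz E (v + 1)) m := by
      refine bd_div (D := v.factorial) (x := v) (hg.mono (by omega)) fun E => ?_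
      have h2 := lower E v
      rw [sz_eq (by omega : 1 ≤ v + 1), Nat.add_sub_cancel]
      exact h2
    have h3 : Bd (fun E => kG E m (v + 1) + sz E (v + 1)) (m + v - 1) :=
      (bd_kG hv).add (bd_sz (m := v + 1) (by omega)) le_rfl (by omega)
    have h4 := ih (by omega) _ h3
    exact ((h1.add (Bd.const 1 m) le_rfl le_rfl).add h4 le_rfl le_rfl).le fun E => le_rfl

lemma bd_Wm {m : ℕ} (hm : 2 ≤ m) : Bd (fun E => Wm E m) m := by
  unfold Wm
  refine bd_Ir (by omega) (m - 1) (by omega) (fun E => kS E m + sz E m) ?_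
  exact (bd_kS (by omega)).add (bd_sz (by omega)) (by omega) (by omega)

/-- the traces of smaller multiplicity, uniformly -/
lemma smallS (m : ℕ) : ∃ E0 : ℕ, ∀ E, E0 ≤ E → ∀ a, 1 ≤ a → a < m →
    2 * (a + 1) * kS E a ≤ Nn E (2 * a) := by
  have h : ∀ a : ℕ, ∃ E0 : ℕ, ∀ E, E0 ≤ E → 1 ≤ a → 2 * (a + 1) * kS E a ≤ Nn E (2 * a) := by
    intro a
    rcases Nat.eq_zero_or_pos a with h0 | h0
    · exact ⟨0, fun E _ h => absurd h (by omega)⟩
    obtain ⟨E1, h1⟩ := (Bd.mul (Bd.const (2 * (a + 1)) 0) (bd_kS h0) le_rfl).small (x := 2 * a)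
      (by omega)
    exact ⟨E1, fun E hE _ => (h1 E hE).le⟩
  choose f hf using h
  refine ⟨∑ a ∈ Finset.range m, f a, fun E hE a ha ham => hf a E ?_ ha⟩
  exact (Finset.single_le_sum (fun i _ => Nat.zero_le (f i)) (Finset.mem_range.2 ham)).trans hE

theorem numBw : S_numBw := by
  intro m hm
  have hm1 : 1 ≤ m := by omega
  have hsz := bd_sz hm1
  have hSz := bd_shift (bd_Sz hm1)
  -- the constants
  have hk := bd_kS hm1
  have hc := bd_cS hm1
  have hc' := bd_cT hm1
  have hW := bd_Wm hm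
  have hR : Bd (fun E => Rg E m (kS E m)) (2 * m - 2) := by
    unfold Rg
    exact hk.add hsz le_rfl (by omega)
  have hY : Bd (fun E => Yg E m (cS E m)) (2 * m - 2) := by
    unfold Yg
    exact hc.add hsz le_rfl (by omega)
  have hWs : Bd (fun E => Wm E m * sz E m) (2 * m - 1) := hW.mul hsz (by omega)
  -- the part `X` without the term linear in the degree
  have hX : Bd (fun E => m * (Nn E (2 * m - 2) + Yg E m (cS E m)) + cT E m + Yg E m (cS E m))
      (2 * m - 2) := by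
    refine Bd.add (Bd.add ((Bd.const m 0).mul ((bd_Nn (2 * m - 2)).add hY le_rfl (by omega))
      (by omega : 0 + (2 * m - 2) ≤ 2 * m - 2)) hc' le_rfl (by omega)) hY le_rfl (by omega)
  obtain ⟨E0, h0⟩ := smallS m
  obtain ⟨E1, h1⟩ := (Bd.mul (Bd.const (2 * m) 0) hk le_rfl).small (x := 2 * m - 1) (by omega)
  obtain ⟨E2, h2⟩ := (Bd.mul (Bd.const ((2 * m + 1) * (2 * m)) 0) ((hWs.add hk (l := 2 * m - 1)
    (by omega) (by omega)).add hX le_rfl (by omega)) le_rfl).small (x := 2 * m) (by omega)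
  obtain ⟨E3, h3⟩ := (Bd.mul (Bd.lin (m + 1)) hWs (l := 2 * m) (by omega)).small
    (x := 2 * m + 1) (by omega)
  obtain ⟨E4, h4⟩ := (Bd.mul (Bd.const (3 * m) 0) (hSz.mul ((bd_dm (2 * m - 2)).add hR
    le_rfl (by omega)) (l := 3 * m - 3) (by omega)) le_rfl).small' (x := 3 * m - 1) (by omega)
  obtain ⟨E5, h5⟩ := (Bd.mul (Bd.const (3 * m) 0) (((((bd_dm (2 * m - 2)).add hR
    le_rfl (by omega)).mul hsz (l := 3 * m - 3) (by omega)).add hk le_rfl (by omega)).add hX
    le_rfl (by omega)) le_rfl).small (x := 3 * m - 1) (by omega)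
  refine ⟨E0 + E1 + E2 + E3 + E4 + E5 + 1, by omega, fun E hE => ?_⟩
  have g0 := h0 E (by omega)
  have g1 := h1 E (by omega)
  have g2 := h2 E (by omega)
  have g3 := h3 E (by omega)
  have g4 := h4 E (by omega)
  have g5 := h5 E (by omega)
  clear h0 h1 h2 h3 h4 h5
  refine ⟨⟨fun a f ha1 ham hf => ?_, fun f hf => ?_, by omega⟩, fun d hd =>
    ⟨by omega, fun e he hde => ⟨?_, ?_, by omega⟩, ?_, ?_⟩⟩
  · -- traces of multiplicity `a < m`
    unfold Rm
    refine room (by omega) (by omega) ?_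
    have r1 : Nn E (2 * a) ≤ Nn E f := Nn_mono (by omega)
    exact (g0 a ha1 ham).trans r1
  · unfold Rm
    refine room (by omega) (by omega) ?_
    have r1 : Nn E (2 * m - 1) ≤ Nn E f := Nn_mono (by omega)
    exact g1.le.trans r1
  · -- the first part of `Cndw`
    have hem : 2 * m ≤ e := by omega
    have r1 := ratio E (2 * m) e hem
    unfold Xg
    set R := Wm E m * sz E m with hRdef
    set κ := kS E m with hκ
    set Y := Yg E m (cS E m) with hYdef
    set N0 := Nn E (2 * m - 2) with hN0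
    set c' := cT E m with hc'def
    refine room (by omega) (by omega) ?_
    -- `2 m (R + κ + X) ≤ Nn E e`
    have s2 : (2 * m + 1) * (2 * m * (R + κ + (m * (N0 + Y) + c' + (e + 1) * Y))) ≤
        (2 * m + 1) * Nn E e := by
      refine le_trans ?_ r1
      refine le_trans ?_ (Nat.mul_le_mul_left (e + 1) g2.le)
      have s3 : R + κ + (m * (N0 + Y) + c' + (e + 1) * Y) ≤
          (e + 1) * (R + κ + (m * (N0 + Y) + c' + Y)) := by
        have s4 : R + κ + (m * (N0 + Y) + c') ≤ (e + 1) * (R + κ + (m * (N0 + Y) + c')) :=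
          Nat.le_mul_of_pos_left _ (by omega)
        calc R + κ + (m * (N0 + Y) + c' + (e + 1) * Y)
            = (R + κ + (m * (N0 + Y) + c')) + (e + 1) * Y := by ring
          _ ≤ (e + 1) * (R + κ + (m * (N0 + Y) + c')) + (e + 1) * Y :=
            Nat.add_le_add_right s4 _
          _ = (e + 1) * (R + κ + (m * (N0 + Y) + c' + Y)) := by ring
      calc (2 * m + 1) * (2 * m * (R + κ + (m * (N0 + Y) + c' + (e + 1) * Y)))
          ≤ (2 * m + 1) * (2 * m * ((e + 1) * (R + κ + (m * (N0 + Y) + c' + Y)))) :=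
            Nat.mul_le_mul_left _ (Nat.mul_le_mul_left _ s3)
        _ = (e + 1) * ((2 * m + 1) * (2 * m) * (R + κ + (m * (N0 + Y) + c' + Y))) := by ring
    exact le_of_mul_le_mul_left s2 (by omega)
  · -- the second part of `Cndw`
    have r1 : Nn E (2 * m + 1) ≤ Nn E (e + 1) := Nn_mono (by omega)
    have r2 : (m + E + 1) * (Wm E m * sz E m) ≤ Nn E (e + 1) := by
      rw [show m + E + 1 = m + 1 + E by ring]
      exact g3.le.trans r1
    obtain ⟨f, hf⟩ : ∃ f, e + 2 = m + (f + 1) := ⟨e + 1 - m, by omega⟩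
    rw [hf]
    calc (m + E + 1) * (Wm E m * sz E m) + m * Nn E (e + 1)
        ≤ Nn E (e + 1) + m * Nn E (e + 1) := Nat.add_le_add_right r2 _
      _ ≤ f * Nn E (e + 1) + (Nn E (e + 1) + m * Nn E (e + 1)) := Nat.le_add_left _ _
      _ = (m + (f + 1)) * Nn E (e + 1) := by ring
  · -- the degree of the fixed part
    have r1 := ratio (E + 1) (3 * m - 1) d hd
    rw [← dm_eq, ← dm_eq] at r1
    rw [show 3 * m - 1 + 1 = 3 * m by omega] at r1
    unfold Qg
    set R := Rg E m (kS E m) with hRdef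
    set D0 := dm E (2 * m - 2) with hD0
    have s1 : (3 * m) * (Sz (E + 1) m * (D0 + d * R)) < (3 * m) * dm E d := by
      refine lt_of_lt_of_le ?_ r1
      refine lt_of_le_of_lt ?_ (Nat.mul_lt_mul_of_pos_left g4 (by omega : 0 < d + 1))
      have s2 : D0 + d * R ≤ (d + 1) * (D0 + R) := by nlinarith [Nat.zero_le (d * D0)]
      calc (3 * m) * (Sz (E + 1) m * (D0 + d * R))
          ≤ (3 * m) * (Sz (E + 1) m * ((d + 1) * (D0 + R))) :=
            Nat.mul_le_mul_left _ (Nat.mul_le_mul_left _ s2)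
        _ = (d + 1) * ((3 * m) * (Sz (E + 1) m * (D0 + R))) := by ring
    exact lt_of_mul_lt_mul_left s1 (by omega)
  · have r1 := ratio E (3 * m - 1) d hd
    rw [show 3 * m - 1 + 1 = 3 * m by omega] at r1
    unfold Qg Xg
    set R := Rg E m (kS E m) with hRdef
    set κ := kS E m with hκ
    set Y := Yg E m (cS E m) with hYdef
    set N0 := Nn E (2 * m - 2) with hN0
    set D0 := dm E (2 * m - 2) with hD0
    set c' := cT E m with hc'def
    set s := sz E m with hs
    have s1 : (3 * m) * ((D0 + d * R) * s + κ + (m * (N0 + Y) + c' + d * Y)) ≤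
        (3 * m) * Nn E d := by
      refine le_trans ?_ r1
      refine le_trans ?_ (Nat.mul_le_mul_left (d + 1) g5.le)
      have s2 : (D0 + d * R) * s + κ + (m * (N0 + Y) + c' + d * Y) ≤
          (d + 1) * ((D0 + R) * s + κ + (m * (N0 + Y) + c' + Y)) := by
        have e1 : (d + 1) * ((D0 + R) * s + κ + (m * (N0 + Y) + c' + Y)) =
            ((D0 + d * R) * s + κ + (m * (N0 + Y) + c' + d * Y)) +
            (d * (D0 * s + κ + (m * (N0 + Y) + c')) + R * s + Y) := by ring
        rw [e1]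
        exact Nat.le_add_right _ _
      calc (3 * m) * ((D0 + d * R) * s + κ + (m * (N0 + Y) + c' + d * Y))
          ≤ (3 * m) * ((d + 1) * ((D0 + R) * s + κ + (m * (N0 + Y) + c' + Y))) :=
            Nat.mul_le_mul_left _ s2
        _ = (d + 1) * ((3 * m) * ((D0 + R) * s + κ + (m * (N0 + Y) + c' + Y))) := by ring
    exact le_of_mul_le_mul_left s1 (by omega)

end Pool.Agent.H1.FW
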