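import Mathlib
import Pool.Agent.H1.FW.NumBw

/-!
# The numerical part of Theorem B'' with an explicit dimension

`n = E + 2 ≥ 200 ^ m`. With `k = E + 1`: `k ^ x ≤ x ! * Nn E x ≤ 2 * k ^ x` for `2 x ^ 2 ≤ k`. All the quantities
are multiplied by powers of `F = (m - 1)!`.
-/

set_option autoImplicit false

namespace Pool.Agent.H1.FW

open Pool.Agent.W608.PR Pool.Agent.H55.FU Pool.Agent.H1.FU Pool.Agent.H55.FV Pool.Agent.H1.FV
open Pool.Agent.H55.FW

lemma pow_aux {k x : ℕ} (hk : 0 < k) (h : 2 * x ^ 2 ≤ k) : (k + x) ^ x ≤ 2 * k ^ x := by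
  have h1 : ∀ j : ℕ, ((k : ℤ) + x) ^ j * (k - j * x) ≤ (k : ℤ) ^ (j + 1) := by
    intro j
    induction j with
    | zero => simp
    | succ j ih =>
      have h2 : ((k : ℤ) + x) * (k - (j + 1) * x) ≤ k * (k - j * x) := by
        have : (0 : ℤ) ≤ (j + 1) * (x * x) := by positivity
        nlinarith
      have h3 : (0 : ℤ) ≤ ((k : ℤ) + x) ^ j := by positivity
      calc ((k : ℤ) + x) ^ (j + 1) * (k - (j + 1 : ℕ) * x)
          = ((k : ℤ) + x) ^ j * (((k : ℤ) + x) * (k - (j + 1) * x)) := by push_cast; ring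
        _ ≤ ((k : ℤ) + x) ^ j * (k * (k - j * x)) := mul_le_mul_of_nonneg_left h2 h3
        _ = k * (((k : ℤ) + x) ^ j * (k - j * x)) := by ring
        _ ≤ k * (k : ℤ) ^ (j + 1) := mul_le_mul_of_nonneg_left ih (by positivity)
        _ = (k : ℤ) ^ (j + 1 + 1) := by ring
  have h2 := h1 x
  have h3 : (k : ℤ) ≤ 2 * (k - x * x) := by
    have : 2 * (x : ℤ) ^ 2 ≤ k := by exact_mod_cast h
    nlinarith
  have h4 : ((k : ℤ) + x) ^ x * k ≤ 2 * (k : ℤ) ^ (x + 1) := by
    calc ((k : ℤ) + x) ^ x * k ≤ ((k : ℤ) + x) ^ x * (2 * (k - x * x)) :=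
          mul_le_mul_of_nonneg_left h3 (by positivity)
      _ = 2 * (((k : ℤ) + x) ^ x * (k - x * x)) := by ring
      _ ≤ 2 * (k : ℤ) ^ (x + 1) := by linarith
  have h5 : (k + x) ^ x * k ≤ 2 * k ^ x * k := by
    have h6 : 2 * (k : ℤ) ^ (x + 1) = 2 * (k : ℤ) ^ x * k := by ring
    rw [h6] at h4
    exact_mod_cast h4
  exact le_of_mul_le_mul_right h5 hk

lemma up {E x : ℕ} (h : 2 * x ^ 2 ≤ E + 1) : x.factorial * Nn E x ≤ 2 * (E + 1) ^ x := by
  have h1 : (E + 1 + 1).ascFactorial x ≤ (E + 1 + x) ^ x := Nat.ascFactorial_le_pow_add (E + 1) x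
  rw [Nat.ascFactorial_eq_factorial_mul_choose] at h1
  have h2 : (E + 1 + x).choose x = (E + 1 + x).choose (E + 1) := by
    rw [Nat.choose_symm_add]
  have h3 : x.factorial * Nn E x ≤ (E + 1 + x) ^ x := by
    unfold Nn
    rw [show x + E + 1 = E + 1 + x by ring, ← h2]
    exact h1
  exact h3.trans (pow_aux (by omega) h)

lemma up_sz {E v : ℕ} (hv : 1 ≤ v) (h : 2 * v ^ 2 ≤ E + 1) :
    (v - 1).factorial * sz E v ≤ 2 * (E + 1) ^ (v - 1) := by
  rw [sz_eq hv]
  refine up (le_trans (Nat.mul_le_mul_left _ (Nat.pow_le_pow_left (by omega) 2)) h)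

lemma aa_le {E v : ℕ} (hv : 1 ≤ v) : aa E v ≤ sz E v := by
  have h := sz_pred E v hv
  omega

lemma kS_le {E v : ℕ} (hv : 1 ≤ v) : kS E v ≤ sz E v * sz E v := by
  have h := sz_pred E v hv
  unfold kS
  calc (aa E v - 1) * sz E (v - 1) + (aa E v - 1) * (aa E v - 2) / 2
      ≤ aa E v * sz E (v - 1) + aa E v * aa E v := by
        refine add_le_add (Nat.mul_le_mul_right _ (Nat.sub_le _ _)) ?_
        exact (Nat.div_le_self _ _).trans (Nat.mul_le_mul (Nat.sub_le _ _) (Nat.sub_le _ _))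
    _ = aa E v * sz E v := by rw [h]; ring
    _ ≤ sz E v * sz E v := Nat.mul_le_mul_right _ (aa_le hv)

lemma kG_le {E m v : ℕ} (hv : 1 ≤ v) (hvm : v ≤ m) : kG E m v ≤ sz E v * sz E m := by
  have h1 : aa E v ≤ sz E m := (aa_le hv).trans (sz_mono E hvm)
  unfold kG
  calc (aa E v - 1) * (sz E m - aa E v) + (aa E v - 1) * (aa E v - 2) / 2
      ≤ aa E v * (sz E m - aa E v) + aa E v * aa E v := by
        refine add_le_add (Nat.mul_le_mul_right _ (Nat.sub_le _ _)) ?_
        exact (Nat.div_le_self _ _).trans (Nat.mul_le_mul (Nat.sub_le _ _) (Nat.sub_le _ _))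
    _ = aa E v * sz E m := by rw [← Nat.mul_add, Nat.sub_add_cancel h1]
    _ ≤ sz E v * sz E m := Nat.mul_le_mul_right _ (aa_le hv)

lemma cS_le {E m : ℕ} (hm : 1 ≤ m) : cS E m ≤ sz E m * sz E m := by
  unfold cS
  exact Nat.mul_le_mul ((Nat.sub_le _ _).trans (aa_le hm)) (Nat.sub_le _ _)

lemma Sz_le {E m : ℕ} (h : m ≤ E + 3) : Sz E m ≤ 2 * sz E m := by
  have h1 := Sz_ratio E m
  have h2 : (E + 2) * Sz E m ≤ (E + 2) * (2 * sz E m) := by
    rw [h1, ← mul_assoc]
    exact Nat.mul_le_mul_right _ (by omega)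
  exact le_of_mul_le_mul_left h2 (by omega)

lemma cT_le {E m : ℕ} (hm : 1 ≤ m) (h : m ≤ E + 3) : cT E m ≤ 2 * (sz E m * sz E m) := by
  unfold cT
  have h1 : aa (E + 1) m ≤ sz E m := by
    unfold aa sz
    rw [show m - 1 + (E + 1) = m + E by omega]
  calc (aa (E + 1) m - 1) * (Sz E m - m) ≤ sz E m * (2 * sz E m) :=
        Nat.mul_le_mul ((Nat.sub_le _ _).trans h1) ((Nat.sub_le _ _).trans (Sz_le h))
    _ = 2 * (sz E m * sz E m) := by ring

/-- the number of the irregular points -/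
lemma Ir_le {E m : ℕ} (hm : 1 ≤ m) (hk : 2 * m ^ 2 ≤ E + 1)
    (hF : (m - 1).factorial ≤ (E + 1) ^ (m - 1)) : ∀ v, v + 1 ≤ m → ∀ g : ℕ,
    (m - 1).factorial * (v.factorial * g) ≤ 6 * (E + 1) ^ (m + v - 1) →
    (m - 1).factorial * Ir E (kG E m) v g ≤ v * (7 * (E + 1) ^ m) := by
  intro v
  induction v with
  | zero =>
    intro _ g _
    simp [Ir]
  | succ v ih =>
    intro hv g hg
    have hv2 : 2 * (v + 1) ^ 2 ≤ E + 1 :=
      le_trans (Nat.mul_le_mul_left _ (Nat.pow_le_pow_left (by omega) 2)) hk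
    have hsv := up_sz (E := E) (v := v + 1) (by omega) hv2
    have hsm := up_sz (E := E) (v := m) hm hk
    have hlow := lower E v
    rw [Nat.add_sub_cancel] at hsv
    have hszv : sz E (v + 1) = Nn E v := by
      rw [sz_eq (by omega : 1 ≤ v + 1), Nat.add_sub_cancel]
    -- the first term
    have hq : (m - 1).factorial * (g / sz E (v + 1)) ≤ 6 * (E + 1) ^ m := by
      have h1 : (m - 1).factorial * (g / sz E (v + 1)) * (E + 1) ^ v ≤
          6 * (E + 1) ^ m * (E + 1) ^ v := by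
        calc (m - 1).factorial * (g / sz E (v + 1)) * (E + 1) ^ v
            ≤ (m - 1).factorial * (g / sz E (v + 1)) * (v.factorial * sz E (v + 1)) := by
              rw [hszv]
              exact Nat.mul_le_mul_left _ hlow
          _ = (m - 1).factorial * (v.factorial * (g / sz E (v + 1) * sz E (v + 1))) := by ring
          _ ≤ (m - 1).factorial * (v.factorial * g) :=
              Nat.mul_le_mul_left _ (Nat.mul_le_mul_left _ (Nat.div_mul_le_self _ _))
          _ ≤ (m - 1).factorial * ((v + 1).factorial * g) :=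
              Nat.mul_le_mul_left _ (Nat.mul_le_mul_right _ (Nat.factorial_le (by omega)))
          _ ≤ 6 * (E + 1) ^ (m + (v + 1) - 1) := hg
          _ = 6 * (E + 1) ^ m * (E + 1) ^ v := by
              rw [show m + (v + 1) - 1 = m + v by omega, pow_add, mul_assoc]
      exact le_of_mul_le_mul_right h1 (pow_pos (Nat.succ_pos E) v)
    have hF1 : (m - 1).factorial ≤ (E + 1) ^ m :=
      hF.trans (Nat.pow_le_pow_right (by omega) (by omega))
    have hpow : (E + 1) ^ (m - 1) * (E + 1) ^ v = (E + 1) ^ (m + v - 1) := by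
      rw [← pow_add]
      congr 1
      omega
    -- the rest
    have hrest := ih (by omega) (kG E m (v + 1) + sz E (v + 1)) (by
      have h2 := kG_le (E := E) (m := m) (v := v + 1) (by omega) (by omega)
      calc (m - 1).factorial * (v.factorial * (kG E m (v + 1) + sz E (v + 1)))
          ≤ (m - 1).factorial * (v.factorial * (sz E (v + 1) * sz E m + sz E (v + 1))) :=
            Nat.mul_le_mul_left _ (Nat.mul_le_mul_left _ (Nat.add_le_add_right h2 _))
        _ = ((m - 1).factorial * sz E m) * (v.factorial * sz E (v + 1)) +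
            (m - 1).factorial * (v.factorial * sz E (v + 1)) := by ring
        _ ≤ (2 * (E + 1) ^ (m - 1)) * (2 * (E + 1) ^ v) +
            (E + 1) ^ (m - 1) * (2 * (E + 1) ^ v) :=
            add_le_add (Nat.mul_le_mul hsm hsv) (Nat.mul_le_mul hF hsv)
        _ = 6 * ((E + 1) ^ (m - 1) * (E + 1) ^ v) := by ring
        _ = 6 * (E + 1) ^ (m + v - 1) := by rw [hpow])
    have hIr : Ir E (kG E m) (v + 1) g = (g / sz E (v + 1) + 1) +
        Ir E (kG E m) v (kG E m (v + 1) + sz E (v + 1)) := rfl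
    rw [hIr]
    calc (m - 1).factorial * ((g / sz E (v + 1) + 1) +
          Ir E (kG E m) v (kG E m (v + 1) + sz E (v + 1)))
        = (m - 1).factorial * (g / sz E (v + 1)) + (m - 1).factorial +
          (m - 1).factorial * Ir E (kG E m) v (kG E m (v + 1) + sz E (v + 1)) := by ring
      _ ≤ 6 * (E + 1) ^ m + (E + 1) ^ m + v * (7 * (E + 1) ^ m) :=
          add_le_add (add_le_add hq hF1) hrest
      _ = (v + 1) * (7 * (E + 1) ^ m) := by ring

/-- the inequalities which are needed imply the statement -/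
lemma core {m E : ℕ} (hm : 2 ≤ m)
    (g0 : ∀ a, 1 ≤ a → a < m → 2 * (a + 1) * kS E a ≤ Nn E (2 * a))
    (g1 : 2 * m * kS E m ≤ Nn E (2 * m - 1))
    (g2 : (2 * m + 1) * (2 * m) * (Wm E m * sz E m + kS E m +
      (m * (Nn E (2 * m - 2) + Yg E m (cS E m)) + cT E m + Yg E m (cS E m))) ≤ Nn E (2 * m))
    (g3 : (m + 1 + E) * (Wm E m * sz E m) ≤ Nn E (2 * m + 1))
    (g4 : 3 * m * (Sz (E + 1) m * (dm E (2 * m - 2) + Rg E m (kS E m))) < dm E (3 * m - 1))
    (g5 : 3 * m * ((dm E (2 * m - 2) + Rg E m (kS E m)) * sz E m + kS E m +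
      (m * (Nn E (2 * m - 2) + Yg E m (cS E m)) + cT E m + Yg E m (cS E m))) ≤ Nn E (3 * m - 1)) :
    Rooms E m (fun a => kS E a) (2 * m - 2) ∧
    ∀ d, 3 * m - 1 ≤ d → Goodw E m (kS E m) (Wm E m) (cS E m) (cT E m) (2 * m - 2) d := by
  refine ⟨⟨fun a f ha1 ham hf => ?_, fun f hf => ?_, by omega⟩, fun d hd =>
    ⟨by omega, fun e he hde => ⟨?_, ?_, by omega⟩, ?_, ?_⟩⟩
  · -- traces of multiplicity `a < m`
    unfold Rm
    refine room (by omega) (by omega) ?_
    have r1 : Nn E (2 * a) ≤ Nn E f := Nn_mono (by omega)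
    exact (g0 a ha1 ham).trans r1
  · unfold Rm
    refine room (by omega) (by omega) ?_
    have r1 : Nn E (2 * m - 1) ≤ Nn E f := Nn_mono (by omega)
    exact g1.trans r1
  · -- the first part of `Cndw`
    have hem : 2 * m ≤ e := by omega
    have r1 := ratio E (2 * m) e hem
    unfold Xg
    set R := Wm E m * sz E m with hRdef
    set κ := kS E m with hκ
    set Y := Yg E m (cS E m) with hYdef
    set N0 := Nn E (2 * m - 2) with hN0
    set c' := cT E m with hc'def
    refine room (by omega) (by omega) ?_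
    -- `2 m (R + κ + X) ≤ Nn E e`
    have s2 : (2 * m + 1) * (2 * m * (R + κ + (m * (N0 + Y) + c' + (e + 1) * Y))) ≤
        (2 * m + 1) * Nn E e := by
      refine le_trans ?_ r1
      refine le_trans ?_ (Nat.mul_le_mul_left (e + 1) g2)
      have s3 : R + κ + (m * (N0 + Y) + c' + (e + 1) * Y) ≤
          (e + 1) * (R + κ + (m * (N0 + Y) + c' + Y)) := by
        have s4 : R + κ + (m * (N0 + Y) + c') ≤ (e + 1) * (R + κ + (m * (N0 + Y) + c')) :=
          Nat.le_mul_of_pos_left _ (by omega)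
        calc R + κ + (m * (N0 + Y) + c' + (e + 1) * Y)
            = (R + κ + (m * (N0 + Y) + c')) + (e + 1) * Y := by ring
          _ ≤ (e + 1) * (R + κ + (m * (N0 + Y) + c')) + (e + 1) * Y :=
            Nat.add_le_add_right s4 _
          _ = (e + 1) * (R + κ + (m * (N0 + Y) + c' + Y)) := by ring
      calc (2 * m + 1) * (2 * m * (R + κ + (m * (N0 + Y) + c' + (e + 1) * Y)))
          ≤ (2 * m + 1) * (2 * m * ((e + 1) * (R + κ + (m * (N0 + Y) + c' + Y)))) :=
            Nat.mul_le_mul_left _ (Nat.mul_le_mul_left _ s3)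
        _ = (e + 1) * ((2 * m + 1) * (2 * m) * (R + κ + (m * (N0 + Y) + c' + Y))) := by ring
    exact le_of_mul_le_mul_left s2 (by omega)
  · -- the second part of `Cndw`
    have r1 : Nn E (2 * m + 1) ≤ Nn E (e + 1) := Nn_mono (by omega)
    have r2 : (m + E + 1) * (Wm E m * sz E m) ≤ Nn E (e + 1) := by
      rw [show m + E + 1 = m + 1 + E by ring]
      exact g3.trans r1
    obtain ⟨f, hf⟩ : ∃ f, e + 2 = m + (f + 1) := ⟨e + 1 - m, by omega⟩
    rw [hf]
    calc (m + E + 1) * (Wm E m * sz E m) + m * Nn E (e + 1)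
        ≤ Nn E (e + 1) + m * Nn E (e + 1) := Nat.add_le_add_right r2 _
      _ ≤ f * Nn E (e + 1) + (Nn E (e + 1) + m * Nn E (e + 1)) := Nat.le_add_left _ _
      _ = (m + (f + 1)) * Nn E (e + 1) := by ring
  · -- the degree of the fixed part
    have r1 := ratio (E + 1) (3 * m - 1) d hd
    rw [← dm_eq, ← dm_eq] at r1
    rw [show 3 * m - 1 + 1 = 3 * m by omega] at r1
    unfold Qg
    set R := Rg E m (kS E m) with hRdef
    set D0 := dm E (2 * m - 2) with hD0
    have s1 : (3 * m) * (Sz (E + 1) m * (D0 + d * R)) < (3 * m) * dm E d := by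
      refine lt_of_lt_of_le ?_ r1
      refine lt_of_le_of_lt ?_ (Nat.mul_lt_mul_of_pos_left g4 (by omega : 0 < d + 1))
      have s2 : D0 + d * R ≤ (d + 1) * (D0 + R) := by nlinarith [Nat.zero_le (d * D0)]
      calc (3 * m) * (Sz (E + 1) m * (D0 + d * R))
          ≤ (3 * m) * (Sz (E + 1) m * ((d + 1) * (D0 + R))) :=
            Nat.mul_le_mul_left _ (Nat.mul_le_mul_left _ s2)
        _ = (d + 1) * ((3 * m) * (Sz (E + 1) m * (D0 + R))) := by ring
    exact lt_of_mul_lt_mul_left s1 (by omega)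
  · have r1 := ratio E (3 * m - 1) d hd
    rw [show 3 * m - 1 + 1 = 3 * m by omega] at r1
    unfold Qg Xg
    set R := Rg E m (kS E m) with hRdef
    set κ := kS E m with hκ
    set Y := Yg E m (cS E m) with hYdef
    set N0 := Nn E (2 * m - 2) with hN0
    set D0 := dm E (2 * m - 2) with hD0
    set c' := cT E m with hc'def
    set s := sz E m with hs
    have s1 : (3 * m) * ((D0 + d * R) * s + κ + (m * (N0 + Y) + c' + d * Y)) ≤
        (3 * m) * Nn E d := by
      refine le_trans ?_ r1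
      refine le_trans ?_ (Nat.mul_le_mul_left (d + 1) g5)
      have s2 : (D0 + d * R) * s + κ + (m * (N0 + Y) + c' + d * Y) ≤
          (d + 1) * ((D0 + R) * s + κ + (m * (N0 + Y) + c' + Y)) := by
        have e1 : (d + 1) * ((D0 + R) * s + κ + (m * (N0 + Y) + c' + Y)) =
            ((D0 + d * R) * s + κ + (m * (N0 + Y) + c' + d * Y)) +
            (d * (D0 * s + κ + (m * (N0 + Y) + c')) + R * s + Y) := by ring
        rw [e1]
        exact Nat.le_add_right _ _
      calc (3 * m) * ((D0 + d * R) * s + κ + (m * (N0 + Y) + c' + d * Y))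
          ≤ (3 * m) * ((d + 1) * ((D0 + R) * s + κ + (m * (N0 + Y) + c' + Y))) :=
            Nat.mul_le_mul_left _ s2
        _ = (d + 1) * ((3 * m) * ((D0 + R) * s + κ + (m * (N0 + Y) + c' + Y))) := by ring
    exact le_of_mul_le_mul_left s1 (by omega)

/-! ### Factorials -/

lemma fac2 (a : ℕ) (ha : 1 ≤ a) :
    (2 * a).factorial ≤ 4 ^ a * a ^ 2 * ((a - 1).factorial * (a - 1).factorial) := by
  have h1 : (2 * a).choose a * a.factorial * (2 * a - a).factorial = (2 * a).factorial :=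
    Nat.choose_mul_factorial_mul_factorial (by omega)
  rw [show 2 * a - a = a by omega] at h1
  have h2 : (2 * a).choose a ≤ 4 ^ a := by
    have := Nat.choose_le_two_pow (2 * a) a
    rw [pow_mul] at this
    exact this
  have h3 : a.factorial = a * (a - 1).factorial := (Nat.mul_factorial_pred (by omega)).symm
  calc (2 * a).factorial = (2 * a).choose a * (a.factorial * a.factorial) := by rw [← h1]; ring
    _ ≤ 4 ^ a * (a.factorial * a.factorial) := Nat.mul_le_mul_right _ h2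
    _ = 4 ^ a * a ^ 2 * ((a - 1).factorial * (a - 1).factorial) := by rw [h3]; ring

lemma fac3 (m : ℕ) (hm : 1 ≤ m) : (3 * m).factorial ≤
    32 ^ m * m ^ 3 * ((m - 1).factorial * (m - 1).factorial * (m - 1).factorial) := by
  have h1 : (3 * m).choose m * m.factorial * (3 * m - m).factorial = (3 * m).factorial :=
    Nat.choose_mul_factorial_mul_factorial (by omega)
  rw [show 3 * m - m = 2 * m by omega] at h1
  have h2 : (3 * m).choose m ≤ 8 ^ m := by
    have := Nat.choose_le_two_pow (3 * m) m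
    rw [pow_mul] at this
    exact this
  have h3 : m.factorial = m * (m - 1).factorial := (Nat.mul_factorial_pred (by omega)).symm
  have h4 := fac2 m hm
  have h5 : (32 : ℕ) ^ m = 8 ^ m * 4 ^ m := by
    rw [← mul_pow]
    norm_num
  calc (3 * m).factorial = (3 * m).choose m * (m.factorial * (2 * m).factorial) := by
        rw [← h1]; ring
    _ ≤ 8 ^ m * (m.factorial * (4 ^ m * m ^ 2 * ((m - 1).factorial * (m - 1).factorial))) :=
        Nat.mul_le_mul h2 (Nat.mul_le_mul_left _ h4)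
    _ = 32 ^ m * m ^ 3 * ((m - 1).factorial * (m - 1).factorial * (m - 1).factorial) := by
        rw [h3, h5]; ring

/-! ### The numerical bounds -/

lemma num1 : ∀ m : ℕ, 2 ≤ m → 28 * m ^ 4 * (2 * m + 1) * 4 ^ m + 1 ≤ 200 ^ m := by
  intro m hm
  induction m, hm using Nat.le_induction with
  | base => norm_num
  | succ m hm ih =>
    have h1 : (m + 1) ^ 4 ≤ 16 * m ^ 4 := by
      calc (m + 1) ^ 4 ≤ (2 * m) ^ 4 := Nat.pow_le_pow_left (by omega) 4
        _ = 16 * m ^ 4 := by ring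
    have h2 : 2 * (m + 1) + 1 ≤ 2 * (2 * m + 1) := by omega
    calc 28 * (m + 1) ^ 4 * (2 * (m + 1) + 1) * 4 ^ (m + 1) + 1
        ≤ 28 * (16 * m ^ 4) * (2 * (2 * m + 1)) * 4 ^ (m + 1) + 1 := by
          refine Nat.add_le_add_right ?_ 1
          exact Nat.mul_le_mul_right _ (Nat.mul_le_mul (Nat.mul_le_mul_left _ h1) h2)
      _ = 128 * (28 * m ^ 4 * (2 * m + 1) * 4 ^ m) + 1 := by rw [pow_succ]; ring
      _ ≤ 200 * (28 * m ^ 4 * (2 * m + 1) * 4 ^ m + 1) := by omega
      _ ≤ 200 * 200 ^ m := Nat.mul_le_mul_left _ ih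
      _ = 200 ^ (m + 1) := by rw [pow_succ]; ring

lemma num2 : ∀ m : ℕ, 2 ≤ m → 32 ^ m + 2 ≤ 200 ^ m := by
  intro m hm
  induction m, hm using Nat.le_induction with
  | base => norm_num
  | succ m hm ih =>
    rw [pow_succ, pow_succ]
    omega

theorem numBx : ∀ m : ℕ, 2 ≤ m → ∀ E, 200 ^ m ≤ E + 2 →
    Rooms E m (fun a => kS E a) (2 * m - 2) ∧
    ∀ d, 3 * m - 1 ≤ d → Goodw E m (kS E m) (Wm E m) (cS E m) (cT E m) (2 * m - 2) d := by
  intro m hm E hE
  have hm1 : 1 ≤ m := by omega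
  have hn1 := num1 m hm
  have hn2 := num2 m hm
  obtain ⟨k, hkE⟩ : ∃ k, k = E + 1 := ⟨_, rfl⟩
  have H1 : 28 * m ^ 4 * (2 * m + 1) * 4 ^ m ≤ k := by omega
  have H0 : 32 ^ m < k := by omega
  have hm4 : 33 * m ^ 4 ≤ k := by
    refine le_trans ?_ H1
    have h1 : 33 ≤ 28 * ((2 * m + 1) * 4 ^ m) := by
      have : 1 ≤ 4 ^ m := Nat.one_le_pow _ _ (by norm_num)
      nlinarith
    calc 33 * m ^ 4 ≤ 28 * ((2 * m + 1) * 4 ^ m) * m ^ 4 := Nat.mul_le_mul_right _ h1
      _ = 28 * m ^ 4 * (2 * m + 1) * 4 ^ m := by ring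
  have hk0 : 0 < k := by omega
  have H2 : 33 * m ^ 4 * 32 ^ m < k ^ 2 := by
    rw [pow_two]
    exact Nat.mul_lt_mul_of_le_of_lt hm4 H0 hk0
  have hm2 : m ^ 2 ≤ m ^ 4 := Nat.pow_le_pow_right (by omega) (by norm_num)
  have hm3 : m ≤ m ^ 2 := by nlinarith
  have hk2 : 2 * m ^ 2 ≤ E + 1 := by omega
  have hk8 : 2 * (2 * m - 2) ^ 2 ≤ k := by
    have h1 : (2 * m - 2) ^ 2 ≤ (2 * m) ^ 2 := Nat.pow_le_pow_left (by omega) 2
    have h2 : (2 * m) ^ 2 = 4 * m ^ 2 := by ring
    omega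
  -- powers
  have p22 : k ^ (m - 1) * k ^ (m - 1) = k ^ (2 * m - 2) := by
    rw [← pow_add]; congr 1; omega
  have p21 : k * k ^ (2 * m - 2) = k ^ (2 * m - 1) := by
    rw [← pow_succ']; congr 1; omega
  have p20 : k * k ^ (2 * m - 1) = k ^ (2 * m) := by
    rw [← pow_succ']; congr 1; omega
  have p2m : k * k ^ (2 * m) = k ^ (2 * m + 1) := (pow_succ' _ _).symm
  have pmm : k ^ m * k ^ (m - 1) = k ^ (2 * m - 1) := by
    rw [← pow_add]; congr 1; omega
  have p33 : k ^ (2 * m - 2) * k ^ (m - 1) = k ^ (3 * m - 3) := by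
    rw [← pow_add]; congr 1; omega
  have p31 : k ^ 2 * k ^ (3 * m - 3) = k ^ (3 * m - 1) := by
    rw [← pow_add]; congr 1; omega
  -- the basic bounds
  obtain ⟨F, hF⟩ : ∃ F, F = (m - 1).factorial := ⟨_, rfl⟩
  have hF0 : 0 < F := by rw [hF]; exact Nat.factorial_pos _
  have hFk : F ≤ k ^ (m - 1) := by
    rw [hF]
    exact (Nat.factorial_le_pow (m - 1)).trans (Nat.pow_le_pow_left (by omega) _)
  have hFF : F * F ≤ (2 * m - 2).factorial := by
    have h1 := Nat.factorial_mul_factorial_dvd_factorial_add (m - 1) (m - 1)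
    rw [show m - 1 + (m - 1) = 2 * m - 2 by omega, ← hF] at h1
    exact Nat.le_of_dvd (Nat.factorial_pos _) h1
  have s1 : F * sz E m ≤ 2 * k ^ (m - 1) := by
    rw [hF, hkE]
    exact up_sz hm1 hk2
  have ss : F * F * (sz E m * sz E m) ≤ 4 * k ^ (2 * m - 2) := by
    calc F * F * (sz E m * sz E m) = (F * sz E m) * (F * sz E m) := by ring
      _ ≤ (2 * k ^ (m - 1)) * (2 * k ^ (m - 1)) := Nat.mul_le_mul s1 s1
      _ = 4 * k ^ (2 * m - 2) := by rw [← p22]; ring
  have fs : F * F * sz E m ≤ 2 * k ^ (2 * m - 2) := by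
    calc F * F * sz E m = F * (F * sz E m) := by ring
      _ ≤ k ^ (m - 1) * (2 * k ^ (m - 1)) := Nat.mul_le_mul hFk s1
      _ = 2 * k ^ (2 * m - 2) := by rw [← p22]; ring
  have sN : F * F * Nn E (2 * m - 2) ≤ 2 * k ^ (2 * m - 2) := by
    rw [hkE] at hk8 ⊢
    exact (Nat.mul_le_mul_right _ hFF).trans (up hk8)
  have sκ : F * F * kS E m ≤ 4 * k ^ (2 * m - 2) := (Nat.mul_le_mul_left _ (kS_le hm1)).trans ss
  have sc : F * F * cS E m ≤ 4 * k ^ (2 * m - 2) := (Nat.mul_le_mul_left _ (cS_le hm1)).trans ss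
  have sc' : F * F * cT E m ≤ 8 * k ^ (2 * m - 2) := by
    calc F * F * cT E m ≤ F * F * (2 * (sz E m * sz E m)) :=
          Nat.mul_le_mul_left _ (cT_le hm1 (by omega))
      _ = 2 * (F * F * (sz E m * sz E m)) := by ring
      _ ≤ 2 * (4 * k ^ (2 * m - 2)) := Nat.mul_le_mul_left _ ss
      _ = 8 * k ^ (2 * m - 2) := by ring
  have sR : F * F * Rg E m (kS E m) ≤ 6 * k ^ (2 * m - 2) := by
    unfold Rg
    rw [Nat.mul_add]
    omega
  have sY : F * F * Yg E m (cS E m) ≤ 6 * k ^ (2 * m - 2) := by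
    unfold Yg
    rw [Nat.mul_add]
    omega
  have sX : F * F * (kS E m + (m * (Nn E (2 * m - 2) + Yg E m (cS E m)) + cT E m +
      Yg E m (cS E m))) ≤ (8 * m + 18) * k ^ (2 * m - 2) := by
    calc F * F * (kS E m + (m * (Nn E (2 * m - 2) + Yg E m (cS E m)) + cT E m +
          Yg E m (cS E m)))
        = F * F * kS E m + (m * (F * F * Nn E (2 * m - 2) + F * F * Yg E m (cS E m)) +
          F * F * cT E m + F * F * Yg E m (cS E m)) := by ring
      _ ≤ 4 * k ^ (2 * m - 2) + (m * (2 * k ^ (2 * m - 2) + 6 * k ^ (2 * m - 2)) +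
          8 * k ^ (2 * m - 2) + 6 * k ^ (2 * m - 2)) :=
          add_le_add sκ (add_le_add (add_le_add (Nat.mul_le_mul_left _ (add_le_add sN sY)) sc') sY)
      _ = (8 * m + 18) * k ^ (2 * m - 2) := by ring
  have sW : F * F * (Wm E m * sz E m) ≤ 14 * (m - 1) * k ^ (2 * m - 1) := by
    have h1 := Ir_le hm1 hk2 (by rw [← hF, ← hkE]; exact hFk) (m - 1) (by omega)
      (kS E m + sz E m) (by
        rw [← hF, ← hkE, show m + (m - 1) - 1 = 2 * m - 2 by omega, ← mul_assoc, Nat.mul_add]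
        omega)
    rw [← hF, ← hkE] at h1
    have h2 : F * Wm E m ≤ (m - 1) * (7 * k ^ m) := h1
    calc F * F * (Wm E m * sz E m) = (F * Wm E m) * (F * sz E m) := by ring
      _ ≤ ((m - 1) * (7 * k ^ m)) * (2 * k ^ (m - 1)) := Nat.mul_le_mul h2 s1
      _ = 14 * (m - 1) * (k ^ m * k ^ (m - 1)) := by ring
      _ = 14 * (m - 1) * k ^ (2 * m - 1) := by rw [pmm]
  have f2 := fac2 m hm1
  have f3 := fac3 m hm1
  rw [← hF] at f2 f3
  have q2 := lower E (2 * m)
  have q21 := lower E (2 * m - 1)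
  have q22 := lower E (2 * m + 1)
  have q3 := lower E (3 * m - 1)
  rw [← hkE] at q2 q21 q22 q3
  have hFF0 : 0 < F * F := Nat.mul_pos hF0 hF0
  have hFFF0 : 0 < F * F * F := Nat.mul_pos hFF0 hF0
  refine core hm ?_ ?_ ?_ ?_ ?_ ?_
  · -- `g0`
    intro a ha ham
    have hka2 : 2 * a ^ 2 ≤ E + 1 :=
      le_trans (Nat.mul_le_mul_left _ (Nat.pow_le_pow_left (by omega) 2)) hk2
    have t1 := up_sz (E := E) ha hka2
    have t2 := fac2 a ha
    have t3 := lower E (2 * a)
    rw [← hkE] at t1 t3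
    obtain ⟨G, hG⟩ : ∃ G, G = (a - 1).factorial := ⟨_, rfl⟩
    have hG0 : 0 < G := by rw [hG]; exact Nat.factorial_pos _
    rw [← hG] at t1 t2
    have pa : k ^ (a - 1) * k ^ (a - 1) = k ^ (2 * a - 2) := by
      rw [← pow_add]; congr 1; omega
    have pa2 : k ^ 2 * k ^ (2 * a - 2) = k ^ (2 * a) := by
      rw [← pow_add]; congr 1; omega
    have t4 : G * G * kS E a ≤ 4 * k ^ (2 * a - 2) := by
      calc G * G * kS E a ≤ G * G * (sz E a * sz E a) := Nat.mul_le_mul_left _ (kS_le ha)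
        _ = (G * sz E a) * (G * sz E a) := by ring
        _ ≤ (2 * k ^ (a - 1)) * (2 * k ^ (a - 1)) := Nat.mul_le_mul t1 t1
        _ = 4 * k ^ (2 * a - 2) := by rw [← pa]; ring
    have t5 : 8 * (a ^ 2 * (a + 1)) * 4 ^ a ≤ k ^ 2 := by
      have e1 : a ^ 2 ≤ m ^ 4 := (Nat.pow_le_pow_left (by omega) 2).trans hm2
      have e2 : (4 : ℕ) ^ a ≤ 4 ^ m := Nat.pow_le_pow_right (by norm_num) (by omega)
      calc 8 * (a ^ 2 * (a + 1)) * 4 ^ a ≤ 28 * (m ^ 4 * (2 * m + 1)) * 4 ^ m :=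
            Nat.mul_le_mul (Nat.mul_le_mul (by norm_num) (Nat.mul_le_mul e1 (by omega))) e2
        _ = 28 * m ^ 4 * (2 * m + 1) * 4 ^ m := by ring
        _ ≤ k := H1
        _ ≤ k ^ 2 := by nlinarith
    have t6 : (G * G * (2 * a).factorial) * (2 * (a + 1) * kS E a) ≤
        (G * G * (2 * a).factorial) * Nn E (2 * a) := by
      calc (G * G * (2 * a).factorial) * (2 * (a + 1) * kS E a)
          = (2 * a).factorial * (2 * (a + 1)) * (G * G * kS E a) := by ring
        _ ≤ (4 ^ a * a ^ 2 * (G * G)) * (2 * (a + 1)) * (4 * k ^ (2 * a - 2)) :=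
            Nat.mul_le_mul (Nat.mul_le_mul_right _ t2) t4
        _ = (G * G) * ((8 * (a ^ 2 * (a + 1)) * 4 ^ a) * k ^ (2 * a - 2)) := by ring
        _ ≤ (G * G) * (k ^ 2 * k ^ (2 * a - 2)) :=
            Nat.mul_le_mul_left _ (Nat.mul_le_mul_right _ t5)
        _ = (G * G) * k ^ (2 * a) := by rw [pa2]
        _ ≤ (G * G) * ((2 * a).factorial * Nn E (2 * a)) := Nat.mul_le_mul_left _ t3
        _ = (G * G * (2 * a).factorial) * Nn E (2 * a) := by ring
    exact le_of_mul_le_mul_left t6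
      (Nat.mul_pos (Nat.mul_pos hG0 hG0) (Nat.factorial_pos _))
  · -- `g1`
    have t1 : 4 * (4 ^ m * m ^ 2) ≤ k := by
      refine le_trans ?_ H1
      calc 4 * (4 ^ m * m ^ 2) ≤ (28 * (2 * m + 1)) * (4 ^ m * m ^ 4) :=
            Nat.mul_le_mul (by omega) (Nat.mul_le_mul_left _ hm2)
        _ = 28 * m ^ 4 * (2 * m + 1) * 4 ^ m := by ring
    have t2 : (2 * m) * (2 * m - 1).factorial = (2 * m).factorial :=
      Nat.mul_factorial_pred (by omega)
    have t6 : (F * F * (2 * m - 1).factorial) * (2 * m * kS E m) ≤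
        (F * F * (2 * m - 1).factorial) * Nn E (2 * m - 1) := by
      calc (F * F * (2 * m - 1).factorial) * (2 * m * kS E m)
          = (2 * m * (2 * m - 1).factorial) * (F * F * kS E m) := by ring
        _ ≤ (4 ^ m * m ^ 2 * (F * F)) * (4 * k ^ (2 * m - 2)) := by
            rw [t2]
            exact Nat.mul_le_mul f2 sκ
        _ = (F * F) * ((4 * (4 ^ m * m ^ 2)) * k ^ (2 * m - 2)) := by ring
        _ ≤ (F * F) * (k * k ^ (2 * m - 2)) :=
            Nat.mul_le_mul_left _ (Nat.mul_le_mul_right _ t1)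
        _ = (F * F) * k ^ (2 * m - 1) := by rw [p21]
        _ ≤ (F * F) * ((2 * m - 1).factorial * Nn E (2 * m - 1)) := Nat.mul_le_mul_left _ q21
        _ = (F * F * (2 * m - 1).factorial) * Nn E (2 * m - 1) := by ring
    exact le_of_mul_le_mul_left t6 (Nat.mul_pos hFF0 (Nat.factorial_pos _))
  · -- `g2`
    have t1 : F * F * (Wm E m * sz E m + kS E m +
        (m * (Nn E (2 * m - 2) + Yg E m (cS E m)) + cT E m + Yg E m (cS E m))) ≤
        14 * m * k ^ (2 * m - 1) := by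
      rw [add_assoc, Nat.mul_add]
      have e1 : (8 * m + 18) * k ^ (2 * m - 2) ≤ 14 * k ^ (2 * m - 1) := by
        rw [← p21, ← mul_assoc]
        exact Nat.mul_le_mul_right _ (by omega)
      have e2 : 14 * (m - 1) * k ^ (2 * m - 1) + 14 * k ^ (2 * m - 1) =
          14 * m * k ^ (2 * m - 1) := by
        rw [← Nat.add_mul]
        congr 1
        omega
      rw [← e2]
      exact add_le_add sW (sX.trans e1)
    have t6 : (F * F * (2 * m).factorial) * ((2 * m + 1) * (2 * m) * (Wm E m * sz E m + kS E m +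
        (m * (Nn E (2 * m - 2) + Yg E m (cS E m)) + cT E m + Yg E m (cS E m)))) ≤
        (F * F * (2 * m).factorial) * Nn E (2 * m) := by
      calc (F * F * (2 * m).factorial) * ((2 * m + 1) * (2 * m) * (Wm E m * sz E m + kS E m +
            (m * (Nn E (2 * m - 2) + Yg E m (cS E m)) + cT E m + Yg E m (cS E m))))
          = (2 * m).factorial * ((2 * m + 1) * (2 * m)) * (F * F * (Wm E m * sz E m + kS E m +
            (m * (Nn E (2 * m - 2) + Yg E m (cS E m)) + cT E m + Yg E m (cS E m)))) := by ring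
        _ ≤ (4 ^ m * m ^ 2 * (F * F)) * ((2 * m + 1) * (2 * m)) * (14 * m * k ^ (2 * m - 1)) :=
            Nat.mul_le_mul (Nat.mul_le_mul_right _ f2) t1
        _ = (F * F) * ((28 * m ^ 4 * (2 * m + 1) * 4 ^ m) * k ^ (2 * m - 1)) := by ring
        _ ≤ (F * F) * (k * k ^ (2 * m - 1)) :=
            Nat.mul_le_mul_left _ (Nat.mul_le_mul_right _ H1)
        _ = (F * F) * k ^ (2 * m) := by rw [p20]
        _ ≤ (F * F) * ((2 * m).factorial * Nn E (2 * m)) := Nat.mul_le_mul_left _ q2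
        _ = (F * F * (2 * m).factorial) * Nn E (2 * m) := by ring
    exact le_of_mul_le_mul_left t6 (Nat.mul_pos hFF0 (Nat.factorial_pos _))
  · -- `g3`
    have t1 : 28 * m ^ 3 * (2 * m + 1) * 4 ^ m ≤ k := by
      refine le_trans ?_ H1
      refine Nat.mul_le_mul_right _ (Nat.mul_le_mul_right _ (Nat.mul_le_mul_left _ ?_))
      exact Nat.pow_le_pow_right (by omega) (by norm_num)
    have t2 : m + 1 + E ≤ 2 * k := by omega
    have t3 : F * F * (Wm E m * sz E m) ≤ 14 * m * k ^ (2 * m - 1) :=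
      sW.trans (Nat.mul_le_mul_right _ (by omega))
    have t6 : (F * F * (2 * m + 1).factorial) * ((m + 1 + E) * (Wm E m * sz E m)) ≤
        (F * F * (2 * m + 1).factorial) * Nn E (2 * m + 1) := by
      calc (F * F * (2 * m + 1).factorial) * ((m + 1 + E) * (Wm E m * sz E m))
          = (2 * m).factorial * ((2 * m + 1) * (m + 1 + E)) * (F * F * (Wm E m * sz E m)) := by
            rw [Nat.factorial_succ]; ring
        _ ≤ (4 ^ m * m ^ 2 * (F * F)) * ((2 * m + 1) * (2 * k)) * (14 * m * k ^ (2 * m - 1)) :=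
            Nat.mul_le_mul (Nat.mul_le_mul f2 (Nat.mul_le_mul_left _ t2)) t3
        _ = (F * F) * ((28 * m ^ 3 * (2 * m + 1) * 4 ^ m) * (k * k ^ (2 * m - 1))) := by ring
        _ ≤ (F * F) * (k * (k * k ^ (2 * m - 1))) :=
            Nat.mul_le_mul_left _ (Nat.mul_le_mul_right _ t1)
        _ = (F * F) * k ^ (2 * m + 1) := by rw [p20, p2m]
        _ ≤ (F * F) * ((2 * m + 1).factorial * Nn E (2 * m + 1)) := Nat.mul_le_mul_left _ q22
        _ = (F * F * (2 * m + 1).factorial) * Nn E (2 * m + 1) := by ring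
    exact le_of_mul_le_mul_left t6 (Nat.mul_pos hFF0 (Nat.factorial_pos _))
  · -- `g4`
    obtain ⟨l, hl⟩ : ∃ l, l = E + 1 + 1 := ⟨_, rfl⟩
    have hkl : k ≤ l := by omega
    have u1 : F * Sz (E + 1) m ≤ 4 * l ^ (m - 1) := by
      have e1 := up_sz (E := E + 1) (v := m) hm1 (by omega)
      rw [← hF, ← hl] at e1
      calc F * Sz (E + 1) m ≤ F * (2 * sz (E + 1) m) :=
            Nat.mul_le_mul_left _ (Sz_le (by omega))
        _ = 2 * (F * sz (E + 1) m) := by ring
        _ ≤ 2 * (2 * l ^ (m - 1)) := Nat.mul_le_mul_left _ e1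
        _ = 4 * l ^ (m - 1) := by ring
    have u2 : F * F * dm E (2 * m - 2) ≤ 2 * l ^ (2 * m - 2) := by
      rw [dm_eq, hl]
      exact (Nat.mul_le_mul_right _ hFF).trans (up (by omega))
    have u3 : F * F * (dm E (2 * m - 2) + Rg E m (kS E m)) ≤ 8 * l ^ (2 * m - 2) := by
      have e1 : k ^ (2 * m - 2) ≤ l ^ (2 * m - 2) := Nat.pow_le_pow_left hkl _
      rw [Nat.mul_add]
      omega
    have pl : l ^ (m - 1) * l ^ (2 * m - 2) = l ^ (3 * m - 3) := by
      rw [← pow_add]; congr 1; omega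
    have pl2 : l ^ 2 * l ^ (3 * m - 3) = l ^ (3 * m - 1) := by
      rw [← pow_add]; congr 1; omega
    have q4 := lower (E + 1) (3 * m - 1)
    rw [← hl, ← dm_eq] at q4
    have t2 : (3 * m) * (3 * m - 1).factorial = (3 * m).factorial :=
      Nat.mul_factorial_pred (by omega)
    have t1 : 32 * (32 ^ m * m ^ 3) < l ^ 2 := by
      refine lt_of_le_of_lt ?_ (H2.trans_le (Nat.pow_le_pow_left hkl 2))
      have e1 : m ^ 3 ≤ m ^ 4 := Nat.pow_le_pow_right (by omega) (by norm_num)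
      calc 32 * (32 ^ m * m ^ 3) ≤ 33 * (32 ^ m * m ^ 4) :=
            Nat.mul_le_mul (by norm_num) (Nat.mul_le_mul_left _ e1)
        _ = 33 * m ^ 4 * 32 ^ m := by ring
    have hl0 : 0 < l ^ (3 * m - 3) := pow_pos (by omega) _
    have t6 : (F * F * F * (3 * m - 1).factorial) * (3 * m * (Sz (E + 1) m *
        (dm E (2 * m - 2) + Rg E m (kS E m)))) <
        (F * F * F * (3 * m - 1).factorial) * dm E (3 * m - 1) := by
      calc (F * F * F * (3 * m - 1).factorial) * (3 * m * (Sz (E + 1) m *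
            (dm E (2 * m - 2) + Rg E m (kS E m))))
          = (3 * m * (3 * m - 1).factorial) * ((F * Sz (E + 1) m) *
            (F * F * (dm E (2 * m - 2) + Rg E m (kS E m)))) := by ring
        _ ≤ (32 ^ m * m ^ 3 * (F * F * F)) * ((4 * l ^ (m - 1)) * (8 * l ^ (2 * m - 2))) := by
            rw [t2]
            exact Nat.mul_le_mul f3 (Nat.mul_le_mul u1 u3)
        _ = (F * F * F) * ((32 * (32 ^ m * m ^ 3)) * (l ^ (m - 1) * l ^ (2 * m - 2))) := by ring
        _ = (F * F * F) * ((32 * (32 ^ m * m ^ 3)) * l ^ (3 * m - 3)) := by rw [pl]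
        _ < (F * F * F) * (l ^ 2 * l ^ (3 * m - 3)) :=
            Nat.mul_lt_mul_of_pos_left (Nat.mul_lt_mul_of_pos_right t1 hl0) hFFF0
        _ = (F * F * F) * l ^ (3 * m - 1) := by rw [pl2]
        _ ≤ (F * F * F) * ((3 * m - 1).factorial * dm E (3 * m - 1)) :=
            Nat.mul_le_mul_left _ q4
        _ = (F * F * F * (3 * m - 1).factorial) * dm E (3 * m - 1) := by ring
    exact lt_of_mul_lt_mul_left t6 (Nat.zero_le _)
  · -- `g5`
    obtain ⟨l, hl⟩ : ∃ l, l = E + 1 + 1 := ⟨_, rfl⟩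
    have hlk : l ^ (2 * m - 2) ≤ 2 * k ^ (2 * m - 2) :=
      (Nat.pow_le_pow_left (by omega) _).trans (pow_aux (x := 2 * m - 2) hk0 hk8)
    have hkl : k ≤ l := by omega
    have u2 : F * F * dm E (2 * m - 2) ≤ 2 * l ^ (2 * m - 2) := by
      rw [dm_eq, hl]
      exact (Nat.mul_le_mul_right _ hFF).trans (up (by omega))
    have u3 : F * F * (dm E (2 * m - 2) + Rg E m (kS E m)) ≤ 16 * k ^ (2 * m - 2) := by
      rw [Nat.mul_add]
      omega
    have t1 : F * F * F * ((dm E (2 * m - 2) + Rg E m (kS E m)) * sz E m + kS E m +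
        (m * (Nn E (2 * m - 2) + Yg E m (cS E m)) + cT E m + Yg E m (cS E m))) ≤
        33 * m * k ^ (3 * m - 3) := by
      calc F * F * F * ((dm E (2 * m - 2) + Rg E m (kS E m)) * sz E m + kS E m +
            (m * (Nn E (2 * m - 2) + Yg E m (cS E m)) + cT E m + Yg E m (cS E m)))
          = (F * F * (dm E (2 * m - 2) + Rg E m (kS E m))) * (F * sz E m) +
            (F * F * (kS E m + (m * (Nn E (2 * m - 2) + Yg E m (cS E m)) + cT E m +
              Yg E m (cS E m)))) * F := by ring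
        _ ≤ (16 * k ^ (2 * m - 2)) * (2 * k ^ (m - 1)) +
            ((8 * m + 18) * k ^ (2 * m - 2)) * k ^ (m - 1) :=
            add_le_add (Nat.mul_le_mul u3 s1) (Nat.mul_le_mul sX hFk)
        _ = (8 * m + 50) * (k ^ (2 * m - 2) * k ^ (m - 1)) := by ring
        _ = (8 * m + 50) * k ^ (3 * m - 3) := by rw [p33]
        _ ≤ 33 * m * k ^ (3 * m - 3) := Nat.mul_le_mul_right _ (by omega)
    have t2 : (3 * m) * (3 * m - 1).factorial = (3 * m).factorial :=
      Nat.mul_factorial_pred (by omega)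
    have t6 : (F * F * F * (3 * m - 1).factorial) * (3 * m *
        ((dm E (2 * m - 2) + Rg E m (kS E m)) * sz E m + kS E m +
        (m * (Nn E (2 * m - 2) + Yg E m (cS E m)) + cT E m + Yg E m (cS E m)))) ≤
        (F * F * F * (3 * m - 1).factorial) * Nn E (3 * m - 1) := by
      calc (F * F * F * (3 * m - 1).factorial) * (3 * m *
            ((dm E (2 * m - 2) + Rg E m (kS E m)) * sz E m + kS E m +
            (m * (Nn E (2 * m - 2) + Yg E m (cS E m)) + cT E m + Yg E m (cS E m))))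
          = (3 * m * (3 * m - 1).factorial) * (F * F * F *
            ((dm E (2 * m - 2) + Rg E m (kS E m)) * sz E m + kS E m +
            (m * (Nn E (2 * m - 2) + Yg E m (cS E m)) + cT E m + Yg E m (cS E m)))) := by ring
        _ ≤ (32 ^ m * m ^ 3 * (F * F * F)) * (33 * m * k ^ (3 * m - 3)) := by
            rw [t2]
            exact Nat.mul_le_mul f3 t1
        _ = (F * F * F) * ((33 * m ^ 4 * 32 ^ m) * k ^ (3 * m - 3)) := by ring
        _ ≤ (F * F * F) * (k ^ 2 * k ^ (3 * m - 3)) :=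
            Nat.mul_le_mul_left _ (Nat.mul_le_mul_right _ H2.le)
        _ = (F * F * F) * k ^ (3 * m - 1) := by rw [p31]
        _ ≤ (F * F * F) * ((3 * m - 1).factorial * Nn E (3 * m - 1)) :=
            Nat.mul_le_mul_left _ q3
        _ = (F * F * F * (3 * m - 1).factorial) * Nn E (3 * m - 1) := by ring
    exact le_of_mul_le_mul_left t6 (Nat.mul_pos hFFF0 (Nat.factorial_pos _))

end Pool.Agent.H1.FW
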